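import Mathlib

-- part MP_9873d2_gt.Block
section

/-! Soft thresholding on a finite block and the recursive shear homeomorphism of a block. -/

set_option autoImplicit false

namespace Pool.Agent.MP_9873d2_gt

open Metric Finset

section Thresh

variable {J : Type} [Fintype J]

/-- number of coordinates of absolute value larger than `ε` -/
noncomputable def cnt (ε : ℝ) (u : J → ℝ) : ℕ := (univ.filter fun x => ε < |u x|).card

lemma cnt_add (ε δ : ℝ) (u v : J → ℝ) : cnt (ε + δ) (u + v) ≤ cnt ε u + cnt δ v := by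
  classical
  unfold cnt
  refine le_trans (card_le_card ?_) (card_union_le _ _)
  intro x hx
  simp only [mem_filter, mem_univ, true_and, mem_union, Pi.add_apply] at hx ⊢
  by_contra hcon
  push Not at hcon
  have := abs_add_le (u x) (v x)
  linarith [hcon.1, hcon.2]

lemma cnt_neg (ε : ℝ) (u : J → ℝ) : cnt ε (-u) = cnt ε u := by
  unfold cnt
  simp

lemma cnt_eq_zero {δ : ℝ} {v : J → ℝ} (h : ∀ x, |v x| ≤ δ) : cnt δ v = 0 := by
  unfold cnt
  rw [card_eq_zero, filter_eq_empty_iff]
  intro x _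
  exact not_lt.mpr (h x)

lemma cnt_mono {ε δ : ℝ} (h : ε ≤ δ) (u : J → ℝ) : cnt δ u ≤ cnt ε u := by
  unfold cnt
  refine card_le_card ?_
  intro x hx
  simp only [mem_filter, mem_univ, true_and] at hx ⊢
  linarith

/-- distance to the set of vectors with at most `k` nonzero coordinates -/
noncomputable def theta (k : ℕ) (u : J → ℝ) : ℝ := infDist u {a : J → ℝ | cnt 0 a ≤ k}

lemma theta_nonneg (k : ℕ) (u : J → ℝ) : 0 ≤ theta k u := infDist_nonneg

lemma theta_le {k : ℕ} {ε : ℝ} (hε : 0 ≤ ε) {u : J → ℝ} (h : cnt ε u ≤ k) : theta k u ≤ ε := by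
  classical
  let a : J → ℝ := fun x => if ε < |u x| then u x else 0
  have ha : a ∈ {a : J → ℝ | cnt 0 a ≤ k} := by
    refine le_trans ?_ h
    unfold cnt
    refine card_le_card ?_
    intro x hx
    simp only [mem_filter, mem_univ, true_and, a] at hx ⊢
    by_contra hcon
    rw [if_neg hcon] at hx
    simp at hx
  refine le_trans (infDist_le_dist_of_mem ha) ?_
  rw [dist_pi_le_iff hε]
  intro x
  simp only [a]
  split_ifs with hx
  · simpa using hε
  · simpa [Real.dist_eq] using not_lt.mp hx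

lemma cnt_theta (k : ℕ) (u : J → ℝ) : cnt (theta k u) u ≤ k := by
  classical
  by_contra hcon
  push Not at hcon
  set S := univ.filter fun x => theta k u < |u x| with hS
  have hSne : S.Nonempty := by
    rw [← card_pos]
    exact lt_of_le_of_lt (Nat.zero_le _) hcon
  obtain ⟨y, hy, hmin⟩ := exists_min_image S (fun x => |u x|) hSne
  have hlt : theta k u < |u y| := (mem_filter.mp hy).2
  have hne : ({a : J → ℝ | cnt 0 a ≤ k}).Nonempty := by
    refine ⟨0, ?_⟩
    have : cnt 0 (0 : J → ℝ) = 0 := cnt_eq_zero (by simp)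
    simp [this]
  obtain ⟨a, ha, hd⟩ := (infDist_lt_iff hne).mp hlt
  have hsub : S ⊆ univ.filter fun x => (0 : ℝ) < |a x| := by
    intro x hx
    simp only [mem_filter, mem_univ, true_and]
    have h1 : dist (u x) (a x) ≤ dist u a := dist_le_pi_dist u a x
    have h2 := hmin x hx
    rw [Real.dist_eq] at h1
    by_contra h0
    have : a x = 0 := by
      have := abs_nonneg (a x)
      exact abs_eq_zero.mp (le_antisymm (not_lt.mp h0) this)
    rw [this, sub_zero] at h1
    linarith
  have h3 : S.card ≤ cnt 0 a := card_le_card hsub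
  have h4 : cnt 0 a ≤ k := ha
  have h5 : k < S.card := hcon
  omega

/-- soft thresholding at level `theta k u` -/
noncomputable def soft (k : ℕ) (u : J → ℝ) : J → ℝ :=
  fun x => u x - max (-theta k u) (min (theta k u) (u x))

lemma abs_sub_soft (k : ℕ) (u : J → ℝ) (x : J) : |u x - soft k u x| ≤ theta k u := by
  have h := theta_nonneg k u
  unfold soft
  rw [sub_sub_cancel, abs_le]
  constructor
  · exact le_max_left _ _
  · exact max_le (by linarith) (min_le_left _ _)

lemma abs_soft_le (k : ℕ) (u : J → ℝ) (x : J) : |soft k u x| ≤ |u x| := by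
  have h := theta_nonneg k u
  unfold soft
  rw [abs_le]
  have h1 := le_abs_self (u x)
  have h2 := neg_abs_le (u x)
  have h3 := abs_nonneg (u x)
  simp only [max_def, min_def]
  split_ifs <;> constructor <;> linarith

lemma cnt_soft (k : ℕ) (u : J → ℝ) : cnt 0 (soft k u) ≤ k := by
  refine le_trans ?_ (cnt_theta k u)
  unfold cnt
  refine card_le_card ?_
  intro x hx
  simp only [mem_filter, mem_univ, true_and] at hx ⊢
  by_contra hcon
  have h := abs_le.mp (not_lt.mp hcon)
  have : soft k u x = 0 := by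
    unfold soft
    rw [min_eq_right h.2, max_eq_right h.1, sub_self]
  rw [this] at hx
  simp at hx

lemma uniformContinuous_soft (k : ℕ) : UniformContinuous (soft k : (J → ℝ) → J → ℝ) := by
  rw [uniformContinuous_pi]
  intro x
  have h1 : LipschitzWith 1 (fun u : J → ℝ => theta k u) := lipschitz_infDist_pt _
  have h2 : LipschitzWith 1 (fun u : J → ℝ => u x) := LipschitzWith.eval x
  have h3 := (h1.neg).max (h1.min h2)
  exact h2.uniformContinuous.sub h3.uniformContinuous

end Thresh

section Block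

variable {J : Type} [Fintype J]

/-- the residuals of the recursive construction in block `n` -/
noncomputable def res (n : ℕ) (h : J → ℝ) (w : ℕ → J → ℝ) : ℕ → J → ℝ
  | 0 => h
  | j + 1 => res n h w j - soft (3 ^ j) (w (n - j) + res n h w j)

noncomputable def fwd (n : ℕ) (p : (J → ℝ) × (ℕ → J → ℝ)) : (J → ℝ) × (ℕ → J → ℝ) :=
  (res n p.1 p.2 (n + 1), fun s => if s ≤ n then p.2 s + res n p.1 p.2 (n - s) else p.2 s)

noncomputable def acc (n : ℕ) (w : ℕ → J → ℝ) (j : ℕ) : J → ℝ :=
  ∑ t ∈ range j, soft (3 ^ t) (w (n - t))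

noncomputable def bwd (n : ℕ) (p : (J → ℝ) × (ℕ → J → ℝ)) : (J → ℝ) × (ℕ → J → ℝ) :=
  (p.1 + acc n p.2 (n + 1),
    fun s => if s ≤ n then p.2 s - (p.1 + acc n p.2 (n + 1) - acc n p.2 (n - s)) else p.2 s)

lemma fwd_snd_sub (n : ℕ) (p : (J → ℝ) × (ℕ → J → ℝ)) {j : ℕ} (hj : j ≤ n) :
    (fwd n p).2 (n - j) = p.2 (n - j) + res n p.1 p.2 j := by
  have h1 : n - j ≤ n := Nat.sub_le _ _
  have h2 : n - (n - j) = j := by omega
  simp only [fwd, if_pos h1, h2]

lemma res_eq_fwd (n : ℕ) (p : (J → ℝ) × (ℕ → J → ℝ)) :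
    ∀ j, j ≤ n + 1 → res n p.1 p.2 j = p.1 - acc n (fwd n p).2 j := by
  intro j
  induction j with
  | zero => intro _; simp [res, acc]
  | succ j ih =>
    intro hj
    have hj' : j ≤ n := by omega
    have := ih (by omega)
    simp only [res, acc, sum_range_succ] at this ⊢
    rw [fwd_snd_sub n p hj', ← sub_sub, ← this]

lemma bwd_fwd (n : ℕ) (p : (J → ℝ) × (ℕ → J → ℝ)) : bwd n (fwd n p) = p := by
  have h1 : (fwd n p).1 + acc n (fwd n p).2 (n + 1) = p.1 := by
    have := res_eq_fwd n p (n + 1) le_rfl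
    have h2 : (fwd n p).1 = res n p.1 p.2 (n + 1) := rfl
    rw [h2, this, sub_add_cancel]
  refine Prod.ext h1 ?_
  funext s
  simp only [bwd, h1]
  split_ifs with hs
  · rw [← res_eq_fwd n p (n - s) (by omega)]
    simp only [fwd, if_pos hs, add_sub_cancel_right]
  · simp only [fwd, if_neg hs]

lemma res_bwd (n : ℕ) (q : (J → ℝ) × (ℕ → J → ℝ)) :
    ∀ j, j ≤ n + 1 → res n (bwd n q).1 (bwd n q).2 j = (bwd n q).1 - acc n q.2 j := by
  intro j
  induction j with
  | zero => intro _; simp [res, acc]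
  | succ j ih =>
    intro hj
    have hj' : j ≤ n := by omega
    have h0 := ih (by omega)
    have h1 : n - j ≤ n := Nat.sub_le _ _
    have h2 : n - (n - j) = j := by omega
    have h3 : (bwd n q).2 (n - j) + res n (bwd n q).1 (bwd n q).2 j = q.2 (n - j) := by
      rw [h0]
      simp only [bwd, if_pos h1, h2]
      abel
    simp only [res]
    rw [h3, h0]
    simp only [acc, sum_range_succ]
    abel

lemma fwd_bwd (n : ℕ) (q : (J → ℝ) × (ℕ → J → ℝ)) : fwd n (bwd n q) = q := by
  refine Prod.ext ?_ ?_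
  · have := res_bwd n q (n + 1) le_rfl
    simp only [fwd]
    rw [this]
    simp only [bwd, add_sub_cancel_right]
  · funext s
    simp only [fwd]
    split_ifs with hs
    · rw [res_bwd n q (n - s) (by omega)]
      simp only [bwd, if_pos hs, sub_add_cancel]
    · simp only [bwd, if_neg hs]

lemma uniformContinuous_res (n j : ℕ) :
    UniformContinuous fun p : (J → ℝ) × (ℕ → J → ℝ) => res n p.1 p.2 j := by
  induction j with
  | zero => exact uniformContinuous_fst
  | succ j ih =>
    simp only [res]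
    have h1 : UniformContinuous fun p : (J → ℝ) × (ℕ → J → ℝ) => p.2 (n - j) :=
      (Pi.uniformContinuous_proj _ (n - j)).comp uniformContinuous_snd
    exact ih.sub ((uniformContinuous_soft _).comp (h1.add ih))

lemma uniformContinuous_fwd (n : ℕ) :
    UniformContinuous (fwd n : (J → ℝ) × (ℕ → J → ℝ) → (J → ℝ) × (ℕ → J → ℝ)) := by
  refine UniformContinuous.prodMk (uniformContinuous_res n (n + 1)) ?_
  rw [uniformContinuous_pi]
  intro s
  have h1 : UniformContinuous fun p : (J → ℝ) × (ℕ → J → ℝ) => p.2 s :=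
    (Pi.uniformContinuous_proj _ s).comp uniformContinuous_snd
  by_cases hs : s ≤ n
  · simp only [if_pos hs]
    exact h1.add (uniformContinuous_res n (n - s))
  · simp only [if_neg hs]
    exact h1

lemma uniformContinuous_acc (n j : ℕ) :
    UniformContinuous fun p : (J → ℝ) × (ℕ → J → ℝ) => acc n p.2 j := by
  induction j with
  | zero => simpa [acc] using uniformContinuous_const
  | succ j ih =>
    simp only [acc, sum_range_succ] at ih ⊢
    have h1 : UniformContinuous fun p : (J → ℝ) × (ℕ → J → ℝ) => p.2 (n - j) :=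
      (Pi.uniformContinuous_proj _ (n - j)).comp uniformContinuous_snd
    exact ih.add ((uniformContinuous_soft _).comp h1)

lemma uniformContinuous_bwd (n : ℕ) :
    UniformContinuous (bwd n : (J → ℝ) × (ℕ → J → ℝ) → (J → ℝ) × (ℕ → J → ℝ)) := by
  have h0 : UniformContinuous fun p : (J → ℝ) × (ℕ → J → ℝ) => p.1 + acc n p.2 (n + 1) :=
    uniformContinuous_fst.add (uniformContinuous_acc n (n + 1))
  refine UniformContinuous.prodMk h0 ?_
  rw [uniformContinuous_pi]
  intro s
  have h1 : UniformContinuous fun p : (J → ℝ) × (ℕ → J → ℝ) => p.2 s :=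
    (Pi.uniformContinuous_proj _ s).comp uniformContinuous_snd
  by_cases hs : s ≤ n
  · simp only [if_pos hs]
    exact h1.sub (h0.sub (uniformContinuous_acc n (n - s)))
  · simp only [if_neg hs]
    exact h1

/-! estimates -/

lemma cnt_res (n : ℕ) (h : J → ℝ) (w : ℕ → J → ℝ) (ε : ℝ) (j : ℕ) :
    2 * cnt ε (res n h w j) + 1 ≤ 2 * cnt ε h + 3 ^ j := by
  induction j with
  | zero => simp [res]
  | succ j ih =>
    have h1 := cnt_add ε 0 (res n h w j) (-soft (3 ^ j) (w (n - j) + res n h w j))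
    rw [add_zero, cnt_neg, ← sub_eq_add_neg] at h1
    have h2 := cnt_soft (3 ^ j) (w (n - j) + res n h w j)
    simp only [res, pow_succ]
    omega

lemma cnt_res' (n : ℕ) (h : J → ℝ) (w : ℕ → J → ℝ) (ε : ℝ) (j : ℕ) :
    2 * cnt ε h + 1 ≤ 2 * cnt ε (res n h w j) + 3 ^ j := by
  induction j with
  | zero => simp [res]
  | succ j ih =>
    have h1 := cnt_add ε 0 (res n h w (j + 1)) (soft (3 ^ j) (w (n - j) + res n h w j))
    have h2 := cnt_soft (3 ^ j) (w (n - j) + res n h w j)
    have h3 : res n h w (j + 1) + soft (3 ^ j) (w (n - j) + res n h w j) = res n h w j := by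
      simp only [res, sub_add_cancel]
    rw [add_zero, h3] at h1
    simp only [pow_succ]
    omega

lemma res_succ_small (n : ℕ) (h : J → ℝ) (w : ℕ → J → ℝ) {ε : ℝ} (hε : 0 ≤ ε) (j : ℕ)
    (hh : 2 * cnt ε h ≤ 3 ^ j) (hw : ∀ x, |w (n - j) x| ≤ ε) (x : J) :
    |res n h w (j + 1) x| ≤ 3 * ε := by
  have h1 := cnt_res n h w ε j
  have h2 := cnt_add ε ε (w (n - j)) (res n h w j)
  rw [cnt_eq_zero hw] at h2
  have h3 : cnt (ε + ε) (w (n - j) + res n h w j) ≤ 3 ^ j := by omega
  have h4 := theta_le (by linarith) h3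
  have h5 := abs_sub_soft (3 ^ j) (w (n - j) + res n h w j) x
  have h6 := hw x
  simp only [res, Pi.sub_apply, Pi.add_apply] at h5 ⊢
  rw [abs_le] at h5 h6 ⊢
  constructor <;> linarith [h5.1, h5.2, h6.1, h6.2]

lemma res_back_small (n : ℕ) (p : (J → ℝ) × (ℕ → J → ℝ)) {ε : ℝ}
    (h1 : ∀ x, |(fwd n p).1 x| ≤ ε) :
    ∀ s, s ≤ n → (∀ t, t ≤ s → ∀ x, |(fwd n p).2 t x| ≤ ε) →
      ∀ x, |res n p.1 p.2 (n - s) x| ≤ (s + 2) * ε := by
  have key : ∀ j, j ≤ n → ∀ x, |res n p.1 p.2 j x| ≤
      |res n p.1 p.2 (j + 1) x| + |(fwd n p).2 (n - j) x| := by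
    intro j hj x
    rw [fwd_snd_sub n p hj]
    have h2 := abs_soft_le (3 ^ j) (p.2 (n - j) + res n p.1 p.2 j) x
    have h3 : res n p.1 p.2 j x =
        res n p.1 p.2 (j + 1) x + soft (3 ^ j) (p.2 (n - j) + res n p.1 p.2 j) x := by
      simp only [res, Pi.sub_apply, sub_add_cancel]
    have h4 := abs_add_le (res n p.1 p.2 (j + 1) x)
      (soft (3 ^ j) (p.2 (n - j) + res n p.1 p.2 j) x)
    rw [← h3] at h4
    linarith
  intro s
  induction s with
  | zero =>
    intro _ hw x
    have h2 := key n le_rfl x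
    have h3 := h1 x
    have h4 := hw 0 le_rfl x
    simp only [Nat.sub_self, Nat.sub_zero] at h2 ⊢
    have h5 : (fwd n p).1 x = res n p.1 p.2 (n + 1) x := rfl
    rw [h5] at h3
    push_cast
    linarith
  | succ s ih =>
    intro hs hw x
    have h2 := key (n - (s + 1)) (by omega) x
    have h3 : n - (s + 1) + 1 = n - s := by omega
    have h4 : n - (n - (s + 1)) = s + 1 := by omega
    rw [h3, h4] at h2
    have h5 := ih (by omega) (fun t ht => hw t (by omega)) x
    have h6 := hw (s + 1) le_rfl x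
    push_cast
    linarith

end Block

end Pool.Agent.MP_9873d2_gt

end

-- part MP_9873d2_gt.Space
section

/-! The countable space with one non-isolated point given by a density filter, and the
uniform homeomorphism that absorbs its function space into a countable power of `c₀`. -/

set_option autoImplicit false

namespace Pool.Agent.MP_9873d2_gt

open Filter Topology Finset

/-- the isolated points, split into blocks of size `3 ^ n` -/
abbrev Pt : Type := Σ n : ℕ, Fin (3 ^ n)

open Classical in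
/-- number of points of block `n` outside `S` -/
noncomputable def miss (S : Set Pt) (n : ℕ) : ℕ :=
  (univ.filter fun x : Fin (3 ^ n) => (⟨n, x⟩ : Pt) ∉ S).card

lemma miss_mono {S T : Set Pt} (h : S ⊆ T) (n : ℕ) : miss T n ≤ miss S n := by
  classical
  unfold miss
  refine card_le_card ?_
  intro x hx
  simp only [mem_filter, mem_univ, true_and] at hx ⊢
  exact fun h1 => hx (h h1)

lemma miss_inter (S T : Set Pt) (n : ℕ) : miss (S ∩ T) n ≤ miss S n + miss T n := by
  classical
  unfold miss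
  refine le_trans (card_le_card ?_) (card_union_le _ _)
  intro x hx
  simp only [mem_filter, mem_univ, true_and, mem_union, Set.mem_inter_iff] at hx ⊢
  tauto

/-- the filter of sets of density one -/
def dens : Filter Pt where
  sets := {S | ∀ s : ℕ, ∀ᶠ n in atTop, miss S n * 3 ^ s ≤ 3 ^ n}
  univ_sets := by
    intro s
    refine Eventually.of_forall fun n => ?_
    simp [miss]
  sets_of_superset := by
    intro S T hS hST s
    filter_upwards [hS s] with n hn
    exact le_trans (Nat.mul_le_mul_right _ (miss_mono hST n)) hn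
  inter_sets := by
    intro S T hS hT s
    filter_upwards [hS (s + 1), hT (s + 1)] with n h1 h2
    have h3 := Nat.mul_le_mul_right (3 ^ s) (miss_inter S T n)
    rw [pow_succ, ← mul_assoc] at h1 h2
    rw [add_mul] at h3
    omega

lemma mem_dens {S : Set Pt} : S ∈ dens ↔ ∀ s : ℕ, ∀ᶠ n in atTop, miss S n * 3 ^ s ≤ 3 ^ n :=
  Iff.rfl

lemma empty_notMem_dens : (∅ : Set Pt) ∉ dens := by
  intro h
  obtain ⟨n, hn⟩ := (mem_dens.mp h 1).exists
  have h1 : miss ∅ n = 3 ^ n := by simp [miss]
  have h2 : 0 < 3 ^ n := by positivity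
  rw [h1] at hn
  omega

lemma mem_dens_of_miss_le_one {S : Set Pt} (h : ∀ n, miss S n ≤ 1) : S ∈ dens := by
  intro s
  filter_upwards [eventually_ge_atTop s] with n hn
  calc miss S n * 3 ^ s ≤ 1 * 3 ^ s := Nat.mul_le_mul_right _ (h n)
    _ = 3 ^ s := one_mul _
    _ ≤ 3 ^ n := Nat.pow_le_pow_right (by norm_num) hn

/-- the countable space: the isolated points together with a point at infinity -/
def Zs : Type := Option Pt

instance : TopologicalSpace Zs where
  IsOpen U := (none : Option Pt) ∈ U → {b : Pt | (some b : Option Pt) ∈ U} ∈ dens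
  isOpen_univ := fun _ => by
    have : {b : Pt | (some b : Option Pt) ∈ (Set.univ : Set Zs)} = Set.univ := by
      ext b; exact ⟨fun _ => trivial, fun _ => trivial⟩
    rw [this]; exact univ_mem
  isOpen_inter := by
    intro U V hU hV h
    exact inter_mem (hU h.1) (hV h.2)
  isOpen_sUnion := by
    intro s hs h
    obtain ⟨U, hU, hn⟩ := h
    exact mem_of_superset (hs U hU hn) fun b hb => ⟨U, hU, hb⟩

lemma isOpen_Zs {U : Set Zs} :
    IsOpen U ↔ ((none : Option Pt) ∈ U → {b : Pt | (some b : Option Pt) ∈ U} ∈ dens) := Iff.rfl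

lemma continuous_Zs {g : Zs → ℝ} :
    Continuous g ↔ Tendsto (fun b : Pt => g (some b)) dens (𝓝 (g none)) := by
  constructor
  · intro hg
    rw [tendsto_nhds]
    intro W hW hn
    exact isOpen_Zs.mp (hW.preimage hg) hn
  · intro hg
    rw [continuous_def]
    intro W hW
    rw [isOpen_Zs]
    intro hn
    exact hg (hW.mem_nhds hn)

/-- block form of continuity on `Zs` -/
lemma continuous_Zs_iff {g : Zs → ℝ} :
    Continuous g ↔ ∀ ε > 0, ∀ s : ℕ, ∀ᶠ n in atTop,
      cnt ε (fun x : Fin (3 ^ n) => g (some ⟨n, x⟩) - g none) * 3 ^ s ≤ 3 ^ n := by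
  rw [continuous_Zs, Metric.nhds_basis_closedBall.tendsto_right_iff]
  refine forall_congr' fun ε => forall_congr' fun _ => ?_
  rw [Filter.Eventually, mem_dens]
  refine forall_congr' fun s => ?_
  have : ∀ n, miss {b : Pt | g (some b) ∈ Metric.closedBall (g none) ε} n =
      cnt ε (fun x : Fin (3 ^ n) => g (some ⟨n, x⟩) - g none) := by
    intro n
    unfold miss cnt
    congr 1
    ext x
    simp [Real.dist_eq]
  simp only [this]

lemma eventually_cofinite_opt {P : Option Pt → Prop} :
    (∀ᶠ b in cofinite, P b) ↔ ∀ᶠ n in atTop, ∀ x : Fin (3 ^ n), P (some ⟨n, x⟩) := by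
  rw [← Nat.cofinite_eq_atTop, eventually_cofinite, eventually_cofinite]
  constructor
  · intro h
    refine (h.image fun b : Option Pt => (b.map Sigma.fst).getD 0).subset ?_
    intro n hn
    simp only [Set.mem_ofPred_eq, not_forall] at hn
    obtain ⟨x, hx⟩ := hn
    exact ⟨some ⟨n, x⟩, hx, rfl⟩
  · intro h
    have h1 : (⋃ n ∈ {n : ℕ | ¬ ∀ x : Fin (3 ^ n), P (some ⟨n, x⟩)},
        Set.range fun x : Fin (3 ^ n) => (some ⟨n, x⟩ : Option Pt)).Finite :=
      h.biUnion fun n _ => Set.finite_range _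
    refine (h1.insert none).subset ?_
    intro b hb
    rcases b with _ | ⟨n, x⟩
    · exact Set.mem_insert _ _
    · refine Set.mem_insert_of_mem _ ?_
      simp only [Set.mem_iUnion]
      exact ⟨n, fun hall => hb (hall x), x, rfl⟩

/-- the countable power of `c₀` -/
def InV (v : ℕ → Option Pt → ℝ) : Prop := ∀ s, Tendsto (v s) cofinite (𝓝 0)

lemma inV_iff {v : ℕ → Option Pt → ℝ} :
    InV v ↔ ∀ s, ∀ ε > 0, ∀ᶠ n in atTop, ∀ x : Fin (3 ^ n), |v s (some ⟨n, x⟩)| ≤ ε := by
  unfold InV
  refine forall_congr' fun s => ?_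
  rw [Metric.nhds_basis_closedBall.tendsto_right_iff]
  refine forall_congr' fun ε => forall_congr' fun _ => ?_
  rw [eventually_cofinite_opt]
  simp

/-- the input of the block map -/
def blkIn (p : (Zs → ℝ) × (ℕ → Option Pt → ℝ)) (n : ℕ) :
    (Fin (3 ^ n) → ℝ) × (ℕ → Fin (3 ^ n) → ℝ) :=
  (fun x => p.1 (some ⟨n, x⟩) - p.1 none, fun s x => p.2 s (some ⟨n, x⟩))

/-- the output of the block map -/
def blkOut (v : ℕ → Option Pt → ℝ) (n : ℕ) :
    (Fin (3 ^ n) → ℝ) × (ℕ → Fin (3 ^ n) → ℝ) :=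
  (fun x => v 0 (some ⟨n, x⟩), fun s x => v (s + 1) (some ⟨n, x⟩))

noncomputable def tau (p : (Zs → ℝ) × (ℕ → Option Pt → ℝ)) : ℕ → Option Pt → ℝ
  | 0, none => p.1 none
  | s + 1, none => p.2 s none
  | 0, some b => (fwd b.1 (blkIn p b.1)).1 b.2
  | s + 1, some b => (fwd b.1 (blkIn p b.1)).2 s b.2

noncomputable def tauInv1 (v : ℕ → Option Pt → ℝ) : Option Pt → ℝ
  | none => v 0 none
  | some b => (bwd b.1 (blkOut v b.1)).1 b.2 + v 0 none

noncomputable def tauInv2 (v : ℕ → Option Pt → ℝ) (s : ℕ) : Option Pt → ℝ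
  | none => v (s + 1) none
  | some b => (bwd b.1 (blkOut v b.1)).2 s b.2

noncomputable def tauInv (v : ℕ → Option Pt → ℝ) : (Zs → ℝ) × (ℕ → Option Pt → ℝ) :=
  (tauInv1 v, tauInv2 v)

lemma blkOut_tau (p : (Zs → ℝ) × (ℕ → Option Pt → ℝ)) (n : ℕ) :
    blkOut (tau p) n = fwd n (blkIn p n) := rfl

lemma blkIn_tauInv (v : ℕ → Option Pt → ℝ) (n : ℕ) :
    blkIn (tauInv v) n = bwd n (blkOut v n) := by
  refine Prod.ext ?_ rfl
  funext x
  simp only [blkIn, tauInv, tauInv1, add_sub_cancel_right]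

lemma tauInv_tau (p : (Zs → ℝ) × (ℕ → Option Pt → ℝ)) : tauInv (tau p) = p := by
  refine Prod.ext ?_ ?_
  · funext b
    rcases b with _ | ⟨n, x⟩
    · rfl
    · show (bwd n (blkOut (tau p) n)).1 x + p.1 none = p.1 (some ⟨n, x⟩)
      rw [blkOut_tau, bwd_fwd]
      simp only [blkIn, sub_add_cancel]
  · funext s b
    rcases b with _ | ⟨n, x⟩
    · rfl
    · show (bwd n (blkOut (tau p) n)).2 s x = p.2 s (some ⟨n, x⟩)
      rw [blkOut_tau, bwd_fwd]
      rfl

lemma tau_tauInv (v : ℕ → Option Pt → ℝ) : tau (tauInv v) = v := by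
  funext s b
  rcases s with _ | s <;> rcases b with _ | ⟨n, x⟩
  · rfl
  · show (fwd n (blkIn (tauInv v) n)).1 x = _
    rw [blkIn_tauInv, fwd_bwd]
    rfl
  · rfl
  · show (fwd n (blkIn (tauInv v) n)).2 s x = _
    rw [blkIn_tauInv, fwd_bwd]
    rfl

lemma uc_eval1 (b : Option Pt) :
    UniformContinuous fun p : (Zs → ℝ) × (ℕ → Option Pt → ℝ) => p.1 b :=
  (Pi.uniformContinuous_proj (fun _ : Zs => ℝ) b).comp uniformContinuous_fst

lemma uc_eval (s : ℕ) (b : Option Pt) :
    UniformContinuous fun v : ℕ → Option Pt → ℝ => v s b :=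
  (Pi.uniformContinuous_proj _ b).comp (Pi.uniformContinuous_proj _ s)

lemma uc_eval2 (s : ℕ) (b : Option Pt) :
    UniformContinuous fun p : (Zs → ℝ) × (ℕ → Option Pt → ℝ) => p.2 s b :=
  (uc_eval s b).comp uniformContinuous_snd

lemma uc_blkIn (n : ℕ) : UniformContinuous fun p => blkIn p n := by
  refine UniformContinuous.prodMk ?_ ?_
  · rw [uniformContinuous_pi]
    intro x
    exact (uc_eval1 _).sub (uc_eval1 _)
  · rw [uniformContinuous_pi]
    intro s
    rw [uniformContinuous_pi]
    intro x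
    exact uc_eval2 _ _

lemma uc_blkOut (n : ℕ) : UniformContinuous fun v => blkOut v n := by
  refine UniformContinuous.prodMk ?_ ?_
  · rw [uniformContinuous_pi]
    intro x
    exact uc_eval _ _
  · rw [uniformContinuous_pi]
    intro s
    rw [uniformContinuous_pi]
    intro x
    exact uc_eval _ _

lemma uc_tau : UniformContinuous tau := by
  rw [uniformContinuous_pi]
  intro s
  rw [uniformContinuous_pi]
  intro b
  rcases s with _ | s <;> rcases b with _ | ⟨n, x⟩
  · exact uc_eval1 none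
  · exact (Pi.uniformContinuous_proj _ x).comp
      (uniformContinuous_fst.comp ((uniformContinuous_fwd n).comp (uc_blkIn n)))
  · exact uc_eval2 s none
  · exact (Pi.uniformContinuous_proj _ x).comp ((Pi.uniformContinuous_proj _ s).comp
      (uniformContinuous_snd.comp ((uniformContinuous_fwd n).comp (uc_blkIn n))))

lemma uc_tauInv : UniformContinuous tauInv := by
  refine UniformContinuous.prodMk ?_ ?_
  · refine uniformContinuous_pi.mpr ?_
    intro b
    rcases b with _ | ⟨n, x⟩
    · exact uc_eval 0 none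
    · exact ((Pi.uniformContinuous_proj _ x).comp
        (uniformContinuous_fst.comp ((uniformContinuous_bwd n).comp (uc_blkOut n)))).add
        (uc_eval 0 none)
  · rw [uniformContinuous_pi]
    intro s
    rw [uniformContinuous_pi]
    intro b
    rcases b with _ | ⟨n, x⟩
    · exact uc_eval (s + 1) none
    · exact (Pi.uniformContinuous_proj _ x).comp ((Pi.uniformContinuous_proj _ s).comp
        (uniformContinuous_snd.comp ((uniformContinuous_bwd n).comp (uc_blkOut n))))

lemma two_mul_le_of {c n j : ℕ} (hj : j ≤ n) (h : c * 3 ^ (n - j + 1) ≤ 3 ^ n) :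
    2 * c ≤ 3 ^ j := by
  have h1 : 3 ^ n = 3 ^ j * 3 ^ (n - j) := by
    rw [← pow_add]; congr 1; omega
  have h2 : 0 < 3 ^ (n - j) := by positivity
  rw [h1, pow_succ] at h
  have h3 : (c * 3) * 3 ^ (n - j) ≤ 3 ^ j * 3 ^ (n - j) := by
    calc (c * 3) * 3 ^ (n - j) = c * (3 ^ (n - j) * 3) := by ring
      _ ≤ _ := h
  have h4 := Nat.le_of_mul_le_mul_right h3 h2
  omega

theorem inV_tau {p : (Zs → ℝ) × (ℕ → Option Pt → ℝ)} (h1 : Continuous p.1) (h2 : InV p.2) :
    InV (tau p) := by
  rw [continuous_Zs_iff] at h1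
  rw [inV_iff] at h2 ⊢
  intro s ε hε
  rcases s with _ | s
  · filter_upwards [h1 (ε / 3) (by positivity) 1, h2 0 (ε / 3) (by positivity)] with n hn hw x
    have h3 : 2 * cnt (ε / 3) (blkIn p n).1 ≤ 3 ^ n :=
      two_mul_le_of le_rfl (by rw [Nat.sub_self]; exact hn)
    have h4 := res_succ_small n (blkIn p n).1 (blkIn p n).2 (ε := ε / 3) (by positivity) n h3
      (by rw [Nat.sub_self]; exact hw) x
    have h5 : tau p 0 (some ⟨n, x⟩) = res n (blkIn p n).1 (blkIn p n).2 (n + 1) x := rfl
    rw [h5]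
    linarith
  · filter_upwards [h1 (ε / 4) (by positivity) (s + 2), h2 s (ε / 4) (by positivity),
      h2 (s + 1) (ε / 4) (by positivity), eventually_ge_atTop (s + 1)] with n hn hw hw' hs x
    have e1 : n - (n - (s + 1)) = s + 1 := by omega
    have h3 : 2 * cnt (ε / 4) (blkIn p n).1 ≤ 3 ^ (n - (s + 1)) :=
      two_mul_le_of (Nat.sub_le _ _) (by rw [e1]; exact hn)
    have h4 := res_succ_small n (blkIn p n).1 (blkIn p n).2 (ε := ε / 4) (by positivity)
      (n - (s + 1)) h3 (by rw [e1]; exact hw') x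
    have e2 : n - (s + 1) + 1 = n - s := by omega
    rw [e2] at h4
    have hs' : s ≤ n := by omega
    have h5 : tau p (s + 1) (some ⟨n, x⟩) =
        p.2 s (some ⟨n, x⟩) + res n (blkIn p n).1 (blkIn p n).2 (n - s) x := by
      show (fwd n (blkIn p n)).2 s x = _
      simp only [fwd, if_pos hs', Pi.add_apply]
      rfl
    rw [h5]
    have h6 := abs_add_le (p.2 s (some ⟨n, x⟩)) (res n (blkIn p n).1 (blkIn p n).2 (n - s) x)
    have h7 := hw x
    linarith

theorem of_inV_tau {p : (Zs → ℝ) × (ℕ → Option Pt → ℝ)} (h : InV (tau p)) :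
    Continuous p.1 ∧ InV p.2 := by
  rw [continuous_Zs_iff, inV_iff]
  rw [inV_iff] at h
  have key : ∀ s : ℕ, ∀ δ > 0, ∀ᶠ n in atTop, s ≤ n ∧
      (∀ x, |res n (blkIn p n).1 (blkIn p n).2 (n - s) x| ≤ (s + 2) * δ) ∧
      ∀ x, |(fwd n (blkIn p n)).2 s x| ≤ δ := by
    intro s δ hδ
    have h1 : ∀ᶠ n in atTop, ∀ t ∈ Set.Iic s, ∀ x : Fin (3 ^ n),
        |tau p (t + 1) (some ⟨n, x⟩)| ≤ δ :=
      (eventually_all_finite (Set.finite_Iic s)).mpr fun t _ => h (t + 1) δ hδ
    filter_upwards [h1, h 0 δ hδ, eventually_ge_atTop s] with n hn h0 hs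
    exact ⟨hs, res_back_small n (blkIn p n) h0 s hs fun t ht => hn t ht, hn s (le_refl s)⟩
  constructor
  · intro ε hε s
    filter_upwards [key s (ε / (s + 2)) (by positivity)] with n hn
    obtain ⟨hs, h1, _⟩ := hn
    have e1 : ((s : ℝ) + 2) * (ε / (s + 2)) = ε := by field_simp
    rw [e1] at h1
    have h2 := cnt_res' n (blkIn p n).1 (blkIn p n).2 ε (n - s)
    rw [cnt_eq_zero h1] at h2
    have h3 : cnt ε (blkIn p n).1 ≤ 3 ^ (n - s) := by omega
    calc cnt ε (blkIn p n).1 * 3 ^ s ≤ 3 ^ (n - s) * 3 ^ s := Nat.mul_le_mul_right _ h3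
      _ = 3 ^ n := by rw [← pow_add]; congr 1; omega
  · intro s ε hε
    filter_upwards [key s (ε / (s + 3)) (by positivity)] with n hn x
    obtain ⟨hs, h1, h2⟩ := hn
    have h3 := h1 x
    have h4 := h2 x
    have h5 : (fwd n (blkIn p n)).2 s x =
        p.2 s (some ⟨n, x⟩) + res n (blkIn p n).1 (blkIn p n).2 (n - s) x := by
      simp only [fwd, if_pos hs, Pi.add_apply]
      rfl
    rw [h5] at h4
    have e1 : ((s : ℝ) + 2) * (ε / (s + 3)) + ε / (s + 3) = ε := by field_simp; ring
    rw [abs_le] at h3 h4 ⊢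
    constructor <;> linarith [h3.1, h3.2, h4.1, h4.2]

end Pool.Agent.MP_9873d2_gt

end

-- part MP_9873d2_gt.Line
section

/-! A complemented copy of the countable power of `c₀` inside the pointwise function space of the
real line, and the resulting uniform homeomorphism. -/

set_option autoImplicit false

namespace Pool.Agent.MP_9873d2_gt

open Filter Topology

/-- radius of the bump attached to `b` -/
noncomputable def rad (b : Option Pt) : ℝ := (1 / 2) ^ (Encodable.encode b + 2)

/-- centre of the bump attached to `(s, b)` -/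
noncomputable def ctr (i : ℕ × Option Pt) : ℝ := i.1 + 3 * rad i.2

noncomputable def bump (i : ℕ × Option Pt) (t : ℝ) : ℝ := max 0 (1 - |t - ctr i| / rad i.2)

lemma rad_pos (b : Option Pt) : 0 < rad b := by unfold rad; positivity

lemma rad_le (b : Option Pt) : 4 * rad b ≤ 1 := by
  unfold rad
  have : ((1 : ℝ) / 2) ^ Encodable.encode b ≤ 1 := pow_le_one₀ (by norm_num) (by norm_num)
  rw [pow_add]
  nlinarith

lemma continuous_bump (i : ℕ × Option Pt) : Continuous (bump i) := by
  unfold bump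
  fun_prop

lemma bump_nonneg (i : ℕ × Option Pt) (t : ℝ) : 0 ≤ bump i t := le_max_left _ _

lemma bump_le_one (i : ℕ × Option Pt) (t : ℝ) : bump i t ≤ 1 := by
  unfold bump
  have : 0 ≤ |t - ctr i| / rad i.2 := div_nonneg (abs_nonneg _) (rad_pos _).le
  exact max_le zero_le_one (by linarith)

lemma bump_ctr (i : ℕ × Option Pt) : bump i (ctr i) = 1 := by
  simp [bump]

lemma bump_ne_zero {i : ℕ × Option Pt} {t : ℝ} (h : bump i t ≠ 0) :
    i.1 + 2 * rad i.2 < t ∧ t < i.1 + 4 * rad i.2 := by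
  have h1 : 0 < 1 - |t - ctr i| / rad i.2 := by
    by_contra hcon
    exact h (max_eq_left (not_lt.mp hcon))
  have h2 : |t - ctr i| < rad i.2 := by
    have := (div_lt_one (rad_pos i.2)).mp (by linarith : |t - ctr i| / rad i.2 < 1)
    exact this
  rw [abs_lt] at h2
  unfold ctr at h2
  constructor <;> linarith [h2.1, h2.2]

lemma bump_unique {i j : ℕ × Option Pt} {t : ℝ} (hi : bump i t ≠ 0) (hj : bump j t ≠ 0) :
    i = j := by
  obtain ⟨h1, h2⟩ := bump_ne_zero hi
  obtain ⟨h3, h4⟩ := bump_ne_zero hj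
  have p1 := rad_pos i.2
  have p2 := rad_pos j.2
  have q1 := rad_le i.2
  have q2 := rad_le j.2
  have e1 : i.1 = j.1 := by
    have a1 : (i.1 : ℝ) < j.1 + 1 := by linarith
    have a2 : (j.1 : ℝ) < i.1 + 1 := by linarith
    have b1 : i.1 < j.1 + 1 := by exact_mod_cast a1
    have b2 : j.1 < i.1 + 1 := by exact_mod_cast a2
    omega
  have key : ∀ b c : Option Pt, rad b < 2 * rad c → Encodable.encode c ≤ Encodable.encode b := by
    intro b c hbc
    by_contra hcon
    have h5 : Encodable.encode b + 2 ≤ Encodable.encode c + 1 := by omega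
    have h6 : ((1 : ℝ) / 2) ^ (Encodable.encode c + 1) ≤ (1 / 2) ^ (Encodable.encode b + 2) :=
      pow_le_pow_of_le_one (by norm_num) (by norm_num) h5
    unfold rad at hbc
    rw [pow_succ _ (Encodable.encode c + 1)] at hbc
    linarith
  rw [e1] at h1 h2
  have e2 : Encodable.encode i.2 = Encodable.encode j.2 :=
    le_antisymm (key j.2 i.2 (by linarith)) (key i.2 j.2 (by linarith))
  exact Prod.ext e1 (Encodable.encode_injective e2)

lemma bump_nat (i : ℕ × Option Pt) (s : ℕ) : bump i s = 0 := by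
  by_contra h
  obtain ⟨h1, h2⟩ := bump_ne_zero h
  have p1 := rad_pos i.2
  have q1 := rad_le i.2
  have a1 : (i.1 : ℝ) < s := by linarith
  have a2 : (s : ℝ) < i.1 + 1 := by linarith
  have b1 : i.1 < s := by exact_mod_cast a1
  have b2 : s < i.1 + 1 := by exact_mod_cast a2
  omega

/-- the extension operator -/
noncomputable def extd (v : ℕ → Option Pt → ℝ) (t : ℝ) : ℝ :=
  ∑ᶠ i : ℕ × Option Pt, v i.1 i.2 * bump i t

/-- the restriction operator -/
noncomputable def rstr (f : ℝ → ℝ) (s : ℕ) (b : Option Pt) : ℝ := f (ctr (s, b)) - f s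

lemma extd_eq_of {t : ℝ} {i : ℕ × Option Pt} (h : ∀ j, j ≠ i → bump j t = 0)
    (v : ℕ → Option Pt → ℝ) : extd v t = v i.1 i.2 * bump i t := by
  unfold extd
  refine finsum_eq_single _ i ?_
  intro j hj
  rw [h j hj, mul_zero]

lemma exists_index (t : ℝ) : ∃ i : ℕ × Option Pt, ∀ j, j ≠ i → bump j t = 0 := by
  by_cases h : ∃ i, bump i t ≠ 0
  · obtain ⟨i, hi⟩ := h
    refine ⟨i, fun j hj => ?_⟩
    by_contra hcon
    exact hj (bump_unique hcon hi)
  · push Not at h
    exact ⟨(0, none), fun j _ => h j⟩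

lemma extd_ctr (v : ℕ → Option Pt → ℝ) (i : ℕ × Option Pt) : extd v (ctr i) = v i.1 i.2 := by
  have h : ∀ j, j ≠ i → bump j (ctr i) = 0 := by
    intro j hj
    by_contra hcon
    exact hj (bump_unique hcon (by rw [bump_ctr]; exact one_ne_zero))
  rw [extd_eq_of h, bump_ctr, mul_one]

lemma extd_nat (v : ℕ → Option Pt → ℝ) (s : ℕ) : extd v s = 0 := by
  rw [extd_eq_of (i := (0, none)) fun j _ => bump_nat j s, bump_nat, mul_zero]

lemma uc_extd : UniformContinuous extd := by
  refine uniformContinuous_pi.mpr fun t => ?_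
  obtain ⟨i, hi⟩ := exists_index t
  have : (fun v => extd v t) = fun v : ℕ → Option Pt → ℝ => v i.1 i.2 * bump i t :=
    funext fun v => extd_eq_of hi v
  rw [this]
  exact (uc_eval i.1 i.2).mul_const' _

lemma uc_rstr : UniformContinuous rstr := by
  refine uniformContinuous_pi.mpr fun s => uniformContinuous_pi.mpr fun b => ?_
  exact (Pi.uniformContinuous_proj (fun _ : ℝ => ℝ) _).sub
    (Pi.uniformContinuous_proj (fun _ : ℝ => ℝ) _)

lemma tendsto_rad : Tendsto rad cofinite (𝓝 0) := by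
  have h1 : Tendsto (fun b : Option Pt => Encodable.encode b) cofinite atTop := by
    rw [← Nat.cofinite_eq_atTop]
    exact Encodable.encode_injective.tendsto_cofinite
  have h2 : Tendsto (fun n : ℕ => ((1 : ℝ) / 2) ^ (n + 2)) atTop (𝓝 0) :=
    (tendsto_pow_atTop_nhds_zero_of_lt_one (by norm_num) (by norm_num)).comp
      (tendsto_add_atTop_nat 2)
  exact h2.comp h1

lemma inV_rstr {f : ℝ → ℝ} (hf : Continuous f) : InV (rstr f) := by
  intro s
  have h1 : Tendsto (fun b : Option Pt => ctr (s, b)) cofinite (𝓝 (s : ℝ)) := by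
    have := (tendsto_rad.const_mul 3).const_add (s : ℝ)
    simpa [ctr] using this
  have h2 := ((hf.tendsto _).comp h1).sub_const (f s)
  rw [sub_self] at h2
  exact h2

lemma continuous_extd {v : ℕ → Option Pt → ℝ} (hv : InV v) : Continuous (extd v) := by
  classical
  refine continuous_of_locally_uniform_approx_of_continuousAt ?_
  intro t₀ u hu
  obtain ⟨ε, hε, hu⟩ := Metric.mem_uniformity_dist.mp hu
  obtain ⟨N, hN⟩ := exists_nat_gt (t₀ + 1)
  have hfin : {i : ℕ × Option Pt | i.1 < N ∧ ¬ |v i.1 i.2| < ε}.Finite := by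
    have h1 : ∀ s : ℕ, {b : Option Pt | ¬ |v s b| < ε}.Finite := by
      intro s
      have := Metric.tendsto_nhds.mp (hv s) ε hε
      rw [eventually_cofinite] at this
      simpa [Real.dist_eq] using this
    have h2 : (⋃ s ∈ Set.Iio N, (fun b => (s, b)) '' {b : Option Pt | ¬ |v s b| < ε}).Finite :=
      (Set.finite_Iio N).biUnion fun s _ => (h1 s).image _
    refine h2.subset ?_
    rintro ⟨s, b⟩ ⟨hs, hb⟩
    simp only [Set.mem_iUnion]
    exact ⟨s, hs, b, hb, rfl⟩
  refine ⟨Set.Iio (t₀ + 1), Iio_mem_nhds (by linarith),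
    fun t => ∑ i ∈ hfin.toFinset, v i.1 i.2 * bump i t, ?_, ?_⟩
  · exact (continuous_finsetSum _ fun i _ => continuous_const.mul (continuous_bump i)).continuousAt
  · intro t ht
    apply hu
    obtain ⟨i, hi⟩ := exists_index t
    rw [extd_eq_of hi]
    beta_reduce
    by_cases him : i ∈ hfin.toFinset
    · rw [Finset.sum_eq_single_of_mem i him fun j _ hj => by rw [hi j hj, mul_zero]]
      simpa using hε
    · rw [Finset.sum_eq_zero fun j hj => by
        rw [hi j (fun h => him (h ▸ hj)), mul_zero]]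
      rw [dist_zero_right, Real.norm_eq_abs]
      by_cases hb : bump i t = 0
      · rw [hb]; simpa using hε
      · have h1 := (bump_ne_zero hb).1
        have h2 := rad_pos i.2
        have h3 : (i.1 : ℝ) < N := by
          have : t < t₀ + 1 := ht
          linarith
        have h4 : i.1 < N := by exact_mod_cast h3
        have h5 : |v i.1 i.2| < ε := by
          by_contra hcon
          exact him (hfin.mem_toFinset.mpr ⟨h4, hcon⟩)
        rw [abs_mul, abs_of_nonneg (bump_nonneg i t)]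
        have h6 := bump_le_one i t
        have h7 := bump_nonneg i t
        have h8 := abs_nonneg (v i.1 i.2)
        nlinarith

lemma rstr_repl (f : ℝ → ℝ) (v : ℕ → Option Pt → ℝ) :
    rstr (f - extd (rstr f) + extd v) = v := by
  funext s b
  simp only [rstr, Pi.add_apply, Pi.sub_apply, extd_ctr, extd_nat]
  ring

noncomputable def theta1 (G : ℝ ⊕ Zs → ℝ) : ℝ → ℝ :=
  (G ∘ Sum.inl) - extd (rstr (G ∘ Sum.inl)) + extd (tau (G ∘ Sum.inr, rstr (G ∘ Sum.inl)))

noncomputable def theta2 (F : ℝ → ℝ) : ℝ ⊕ Zs → ℝ :=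
  Sum.elim (F - extd (rstr F) + extd (tauInv (rstr F)).2) (tauInv (rstr F)).1

lemma theta2_theta1 (G : ℝ ⊕ Zs → ℝ) : theta2 (theta1 G) = G := by
  have h1 : rstr (theta1 G) = tau (G ∘ Sum.inr, rstr (G ∘ Sum.inl)) := rstr_repl _ _
  unfold theta2
  rw [h1, tauInv_tau]
  funext x
  rcases x with x | x
  · simp only [theta1, Sum.elim_inl, Pi.add_apply, Pi.sub_apply, Function.comp_apply]
    ring
  · rfl

lemma theta1_theta2 (F : ℝ → ℝ) : theta1 (theta2 F) = F := by
  have h1 : theta2 F ∘ Sum.inl = F - extd (rstr F) + extd (tauInv (rstr F)).2 := rfl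
  have h2 : theta2 F ∘ Sum.inr = (tauInv (rstr F)).1 := rfl
  unfold theta1
  rw [h1, h2, rstr_repl]
  have h3 : tau ((tauInv (rstr F)).1, (tauInv (rstr F)).2) = rstr F := tau_tauInv _
  rw [h3]
  abel

lemma uc_theta1 : UniformContinuous theta1 := by
  have h1 : UniformContinuous fun G : ℝ ⊕ Zs → ℝ => G ∘ Sum.inl :=
    uniformContinuous_pi.mpr fun x => Pi.uniformContinuous_proj (fun _ : ℝ ⊕ Zs => ℝ) _
  have h2 : UniformContinuous fun G : ℝ ⊕ Zs → ℝ => G ∘ Sum.inr :=
    uniformContinuous_pi.mpr fun x => Pi.uniformContinuous_proj (fun _ : ℝ ⊕ Zs => ℝ) _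
  have h3 := uc_rstr.comp h1
  exact (h1.sub (uc_extd.comp h3)).add (uc_extd.comp (uc_tau.comp (h2.prodMk h3)))

lemma uc_theta2 : UniformContinuous theta2 := by
  have h1 := uc_tauInv.comp uc_rstr
  have h2 : UniformContinuous fun F : ℝ → ℝ => F - extd (rstr F) + extd (tauInv (rstr F)).2 :=
    (uniformContinuous_id.sub (uc_extd.comp uc_rstr)).add
      (uc_extd.comp (uniformContinuous_snd.comp h1))
  have h3 : UniformContinuous fun F : ℝ → ℝ => (tauInv (rstr F)).1 :=
    uniformContinuous_fst.comp h1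
  refine uniformContinuous_pi.mpr fun x => ?_
  rcases x with x | x
  · exact (Pi.uniformContinuous_proj (fun _ : ℝ => ℝ) x).comp h2
  · exact (Pi.uniformContinuous_proj (fun _ : Zs => ℝ) x).comp h3

noncomputable def thetaEquiv : (ℝ ⊕ Zs → ℝ) ≃ᵤ (ℝ → ℝ) where
  toFun := theta1
  invFun := theta2
  left_inv := theta2_theta1
  right_inv := theta1_theta2
  uniformContinuous_toFun := uc_theta1
  uniformContinuous_invFun := uc_theta2

lemma continuous_theta1 {G : ℝ ⊕ Zs → ℝ} (hG : Continuous G) : Continuous (theta1 G) := by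
  have h1 : Continuous (G ∘ Sum.inl) := hG.comp continuous_inl
  have h2 : Continuous (G ∘ Sum.inr) := hG.comp continuous_inr
  have h3 := inV_rstr h1
  exact (h1.sub (continuous_extd h3)).add (continuous_extd (inV_tau h2 h3))

lemma continuous_theta2 {F : ℝ → ℝ} (hF : Continuous F) : Continuous (theta2 F) := by
  have h1 := inV_rstr hF
  have h2 : InV (tau (tauInv (rstr F))) := by rw [tau_tauInv]; exact h1
  obtain ⟨h3, h4⟩ := of_inV_tau h2
  exact ((hF.sub (continuous_extd h1)).add (continuous_extd h4)).sumElim h3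

theorem uequiv :
    Nonempty (UniformEquiv {g : ℝ ⊕ Zs → ℝ // Continuous g} {g : ℝ → ℝ // Continuous g}) := by
  refine ⟨thetaEquiv.subtype fun G => ⟨continuous_theta1, fun h => ?_⟩⟩
  have := continuous_theta2 h
  have e : theta2 (thetaEquiv G) = G := theta2_theta1 G
  rwa [e] at this

end Pool.Agent.MP_9873d2_gt

end

-- part MP_9873d2_gt.NotK
section

/-! The sum of the real line and `Zs` is Tychonoff and its compact sets do not determine
its topology. -/

set_option autoImplicit false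

namespace Pool.Agent.MP_9873d2_gt

open Filter Topology

lemma compl_singleton_mem_dens (b : Pt) : ({b}ᶜ : Set Pt) ∈ dens := by
  classical
  refine mem_dens_of_miss_le_one fun n => ?_
  unfold miss
  rw [Finset.card_le_one]
  intro x hx y hy
  simp only [Finset.mem_filter, Finset.mem_univ, true_and, Set.mem_compl_iff,
    Set.mem_singleton_iff, not_not] at hx hy
  have h := hx.trans hy.symm
  exact eq_of_heq (Sigma.mk.inj_iff.mp h).2

lemma isOpen_of_none_notMem {U : Set Zs} (h : (none : Option Pt) ∉ U) : IsOpen U :=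
  isOpen_Zs.mpr fun h1 => absurd h1 h

lemma isClopen_singleton_some (b : Pt) : IsClopen ({(some b : Option Pt)} : Set Zs) := by
  constructor
  · rw [← isOpen_compl_iff, isOpen_Zs]
    intro _
    refine mem_of_superset (compl_singleton_mem_dens b) ?_
    intro c hc hcb
    exact hc (Option.some.inj hcb)
  · exact isOpen_of_none_notMem fun h => by cases h

instance : CompletelyRegularSpace Zs := by
  refine CompletelyRegularSpace.of_isTopologicalBasis_clopens ?_
  refine TopologicalSpace.isTopologicalBasis_of_isOpen_of_nhds (fun U hU => hU.isOpen) ?_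
  intro x U hx hU
  rcases x with _ | b
  · refine ⟨U, ⟨?_, hU⟩, hx, subset_rfl⟩
    rw [← isOpen_compl_iff]
    exact isOpen_of_none_notMem fun h => h hx
  · refine ⟨{(some b : Option Pt)}, isClopen_singleton_some b, rfl, ?_⟩
    intro y hy
    rw [Set.mem_singleton_iff.mp hy]
    exact hx

instance : T0Space Zs := by
  rw [t0Space_iff_exists_isOpen_xor_mem]
  intro x y hxy
  rcases x with _ | b
  · rcases y with _ | c
    · exact absurd rfl hxy
    · exact ⟨{(some c : Option Pt)}, (isClopen_singleton_some c).isOpen,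
        Or.inr ⟨rfl, fun h => hxy h⟩⟩
  · exact ⟨{(some b : Option Pt)}, (isClopen_singleton_some b).isOpen,
      Or.inl ⟨rfl, fun h => hxy (Eq.symm h)⟩⟩

instance : CompletelyRegularSpace (ℝ ⊕ Zs) where
  completely_regular := by
    intro x K hK hx
    rcases x with x | x
    · obtain ⟨f, hf, h0, h1⟩ := CompletelyRegularSpace.completely_regular x (Sum.inl ⁻¹' K)
        (hK.preimage continuous_inl) hx
      refine ⟨Sum.elim f fun _ => 1, hf.sumElim continuous_const, h0, ?_⟩
      rintro (y | y) hy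
      · exact h1 hy
      · rfl
    · obtain ⟨f, hf, h0, h1⟩ := CompletelyRegularSpace.completely_regular x (Sum.inr ⁻¹' K)
        (hK.preimage continuous_inr) hx
      refine ⟨Sum.elim (fun _ => 1) f, continuous_const.sumElim hf, h0, ?_⟩
      rintro (y | y) hy
      · rfl
      · exact h1 hy

instance : T0Space (ℝ ⊕ Zs) := by
  rw [t0Space_iff_exists_isOpen_xor_mem]
  intro x y hxy
  rcases x with x | x <;> rcases y with y | y
  · obtain ⟨U, hU, h⟩ := exists_isOpen_xor_mem (fun h : x = y => hxy (congrArg _ h))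
    refine ⟨Sum.inl '' U, isOpenMap_inl U hU, ?_⟩
    simpa using h
  · exact ⟨Set.range Sum.inl, isOpen_range_inl, Or.inl ⟨⟨x, rfl⟩, by simp⟩⟩
  · exact ⟨Set.range Sum.inl, isOpen_range_inl, Or.inr ⟨⟨y, rfl⟩, by simp⟩⟩
  · obtain ⟨U, hU, h⟩ := exists_isOpen_xor_mem (fun h : x = y => hxy (congrArg _ h))
    refine ⟨Sum.inr '' U, isOpenMap_inr U hU, ?_⟩
    simpa using h

instance : T35Space (ℝ ⊕ Zs) where

/-- every infinite set of isolated points has an infinite subset of density zero -/
lemma exists_thin {S : Set Pt} (hS : S.Infinite) :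
    ∃ A : Set Pt, A ⊆ S ∧ A.Infinite ∧ Aᶜ ∈ dens := by
  classical
  let A : Set Pt := {b | b ∈ S ∧ ∀ y : Fin (3 ^ b.1), (⟨b.1, y⟩ : Pt) ∈ S → b.2 ≤ y}
  refine ⟨A, fun b hb => hb.1, ?_, ?_⟩
  · intro hA
    apply hS
    have h1 : (⋃ b ∈ A, Set.range fun y : Fin (3 ^ b.1) => (⟨b.1, y⟩ : Pt)).Finite :=
      hA.biUnion fun b _ => Set.finite_range _
    refine h1.subset ?_
    rintro ⟨n, x⟩ hb
    obtain ⟨y, hy, hmin⟩ := Finset.exists_min_image
      (Finset.univ.filter fun y : Fin (3 ^ n) => (⟨n, y⟩ : Pt) ∈ S) id ⟨x, by simpa using hb⟩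
    simp only [Set.mem_iUnion]
    refine ⟨⟨n, y⟩, ⟨by simpa using hy, fun z hz => hmin z (by simpa using hz)⟩, x, rfl⟩
  · refine mem_dens_of_miss_le_one fun n => ?_
    unfold miss
    rw [Finset.card_le_one]
    intro x hx y hy
    simp only [Finset.mem_filter, Finset.mem_univ, true_and, Set.mem_compl_iff, not_not] at hx hy
    exact le_antisymm (hx.2 y hy.1) (hy.2 x hx.1)

lemma finite_of_isCompact {K : Set Zs} (hK : IsCompact K) :
    {b : Pt | (some b : Option Pt) ∈ K}.Finite := by
  by_contra hinf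
  obtain ⟨A, hAS, hA, hAd⟩ := exists_thin hinf
  let A' : Set Zs := (fun b : Pt => (some b : Option Pt)) '' A
  have hcl : IsClosed A' := by
    rw [← isOpen_compl_iff, isOpen_Zs]
    intro _
    refine mem_of_superset hAd ?_
    rintro c hc ⟨d, hd, hdc⟩
    exact hc (Option.some.inj hdc ▸ hd)
  have hsub : A' ⊆ K := by
    rintro _ ⟨d, hd, rfl⟩
    exact hAS hd
  have hcomp : IsCompact A' := hK.of_isClosed_subset hcl hsub
  obtain ⟨t, ht⟩ := hcomp.elim_finite_subcover (fun b : Pt => ({(some b : Option Pt)} : Set Zs))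
    (fun b => (isClopen_singleton_some b).isOpen) (by
      rintro _ ⟨d, _, rfl⟩
      exact Set.mem_iUnion.mpr ⟨d, rfl⟩)
  apply hA
  refine t.finite_toSet.subset ?_
  intro d hd
  obtain ⟨c, hc, hdc⟩ := Set.mem_iUnion₂.mp (ht ⟨d, hd, rfl⟩)
  have : d = c := Option.some.inj hdc
  rw [this]
  exact hc

/-- the set of isolated points of `Zs` inside the sum -/
def isoSet : Set (ℝ ⊕ Zs) := Set.range fun b : Pt => (Sum.inr (some b : Option Pt) : ℝ ⊕ Zs)

lemma not_isClosed_isoSet : ¬ IsClosed isoSet := by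
  intro h
  have h1 : IsOpen ((Sum.inr : Zs → ℝ ⊕ Zs) ⁻¹' isoSet)ᶜ :=
    (h.preimage continuous_inr).isOpen_compl
  have h2 := isOpen_Zs.mp h1 (by
    rintro ⟨b, hb⟩
    cases Sum.inr_injective hb)
  apply empty_notMem_dens
  refine mem_of_superset h2 ?_
  intro b hb
  exact hb ⟨b, rfl⟩

lemma isClosed_trace {K : Set (ℝ ⊕ Zs)} (hK : IsCompact K) :
    IsClosed ((Subtype.val : ↥K → ℝ ⊕ Zs) ⁻¹' isoSet) := by
  have h1 : IsCompact ((Sum.inr : Zs → ℝ ⊕ Zs) ⁻¹' K) :=
    Topology.IsClosedEmbedding.inr.isCompact_preimage hK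
  have h2 := (finite_of_isCompact h1).image
    fun b : Pt => (Sum.inr (some b : Option Pt) : ℝ ⊕ Zs)
  have h3 := h2.isClosed.preimage (continuous_subtype_val (p := fun x => x ∈ K))
  convert h3 using 1
  ext ⟨x, hx⟩
  constructor
  · rintro ⟨b, hb⟩
    refine ⟨b, ?_, hb⟩
    have hb' : (Sum.inr (some b : Option Pt) : ℝ ⊕ Zs) = x := hb
    show (Sum.inr (some b : Option Pt) : ℝ ⊕ Zs) ∈ K
    rw [hb']
    exact hx
  · rintro ⟨b, _, hb⟩
    exact ⟨b, hb⟩

end Pool.Agent.MP_9873d2_gt

end
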